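import Pool.Agent.H60.Sob.Bridge

/-!
# MP_c67f28_al: the Sobolev gap of a submodule can be larger

For `G = SU(1,1) × ℝˣ` there are Harish-Chandra modules `V ⊂ U` and a weight `w`, with
`Norm(V, w)` and `Norm(U, w)` nonempty, such that `s(V, w) > s(U, w)`.
-/

namespace Pool.Agent.Results.MP_c67f28_al.SobolevGapNotMonotone

open Pool.Agent.H60.SobS

open Pool.Agent.H60.Sob in
theorem gaps_aux :
    sobolevGap (modL (2 * 4) nil2) (wgt 4) < sobolevGap (modL (2 * 4) (0 : ℂ →ₗ[ℂ] ℂ)) (wgt 4) := by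
  have hVU : ((4 + 3 : ℕ) : ℝ) < ((2 * 4 : ℕ) : ℝ) := by norm_num
  have h1 : sobolevGap (modL (2 * 4) nil2) (wgt 4) ≤ ((4 + 3 : ℕ) : ℝ) :=
    csInf_le ⟨0, fun s hs => hs.1⟩ (gapSet_U (d := 4) (by norm_num))
  have h2 : ((2 * 4 : ℕ) : ℝ) ≤ sobolevGap (modL (2 * 4) (0 : ℂ →ₗ[ℂ] ℂ)) (wgt 4) := by
    refine le_csInf ⟨_, gapSet_V (d := 4) (by norm_num)⟩ ?_
    rintro s ⟨hs, hs2⟩
    exact lower_V hs (hs2 _ _ (norm_V 4 0 (by norm_num)) (norm_V 4 (2 * 4) le_rfl))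
  linarith

open Pool.Agent.H60.Sob in
theorem gaps_aux2 {pmax pmin : (ℕ →₀ ℂ) → ℝ} {qmax qmin : (ℕ →₀ (ℂ × ℂ)) → ℝ}
    (hpmax : IsMaxNorm (modL (2 * 4) (0 : ℂ →ₗ[ℂ] ℂ)) (wgt 4) pmax)
    (hpmin : IsMinNorm (modL (2 * 4) (0 : ℂ →ₗ[ℂ] ℂ)) (wgt 4) pmin)
    (hqmax : IsMaxNorm (modL (2 * 4) nil2) (wgt 4) qmax)
    (hqmin : IsMinNorm (modL (2 * 4) nil2) (wgt 4) qmin) :
    sInf {s | 0 ≤ s ∧ SobLe (modL (2 * 4) nil2) s qmax qmin} <
      sInf {s | 0 ≤ s ∧ SobLe (modL (2 * 4) (0 : ℂ →ₗ[ℂ] ℂ)) s pmax pmin} := by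
  have hVU : ((4 + 3 : ℕ) : ℝ) < ((2 * 4 : ℕ) : ℝ) := by norm_num
  have h1 : sInf {s | 0 ≤ s ∧ SobLe (modL (2 * 4) nil2) s qmax qmin} ≤ ((4 + 3 : ℕ) : ℝ) := by
    have h := gapSet_U (d := 4) (by norm_num)
    exact csInf_le ⟨0, fun s hs => hs.1⟩ ⟨h.1, h.2 _ _ hqmax.1 hqmin.1⟩
  have h2 : ((2 * 4 : ℕ) : ℝ) ≤
      sInf {s | 0 ≤ s ∧ SobLe (modL (2 * 4) (0 : ℂ →ₗ[ℂ] ℂ)) s pmax pmin} := by
    have h := gapSet_V (d := 4) (by norm_num)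
    refine le_csInf ⟨_, h.1, h.2 _ _ hpmax.1 hpmin.1⟩ ?_
    rintro s ⟨hs, D, hD, c, hc⟩
    obtain ⟨c1, hc1⟩ := hpmax.2 _ (norm_V 4 0 (by norm_num))
    obtain ⟨c2, hc2⟩ := hpmin.2 _ (norm_V 4 (2 * 4) le_rfl)
    have hp0 : ∀ v, 0 ≤ pmax v := by
      obtain ⟨E, i1, i2, i3, π, ι, -, -, h3, -⟩ := hpmax.1
      intro v; rw [h3]; exact norm_nonneg _
    have hq0 : ∀ v, 0 ≤ pmin v := by
      obtain ⟨E, i1, i2, i3, π, ι, -, -, h3, -⟩ := hpmin.1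
      intro v; rw [h3]; exact norm_nonneg _
    refine lower_V hs ⟨D, hD, |c1| * (|c| * |c2|), fun v => ?_⟩
    calc ‖iot 0 ℂ v‖ ≤ c1 * pmax v := hc1 v
      _ ≤ |c1| * pmax v := mul_le_mul_of_nonneg_right (le_abs_self _) (hp0 v)
      _ ≤ |c1| * (c * pmin (D v)) := mul_le_mul_of_nonneg_left (hc v) (abs_nonneg _)
      _ ≤ |c1| * (|c| * pmin (D v)) := by
          gcongr
          · exact hq0 _
          · exact le_abs_self _
      _ ≤ |c1| * (|c| * (c2 * ‖iot (2 * 4) ℂ (D v)‖)) := by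
          gcongr
          exact hc2 _
      _ ≤ |c1| * (|c| * (|c2| * ‖iot (2 * 4) ℂ (D v)‖)) := by
          gcongr
          exact le_abs_self _
      _ = _ := by ring
  linarith

open Pool.Agent.H60.Sob (modS nil2 incl wgtS modS_isHC incl_isEmb wgtS_isWeight norm_V norm_U
  inNorm_iff sobolevGap_eq gapOf_eq isMaxNorm_iff isMinNorm_iff) in
/-- There are Harish-Chandra modules `V ⊂ U` for the real reductive group `G = SU(1,1) × ℝˣ` and a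
weight `w` with `Norm(V, w)` and `Norm(U, w)` nonempty and `s(U, w) < s(V, w)`. The last clause
says the same with the gap computed from representatives of the maximal and minimal classes. -/
theorem result :
    ∃ (V : Type) (_ : AddCommGroup V) (_ : Module ℂ V) (MV : GKModule V)
      (U : Type) (_ : AddCommGroup U) (_ : Module ℂ U) (MU : GKModule U)
      (φ : V →ₗ[ℂ] U) (w : G → ℝ),
      IsHarishChandra MV ∧ IsHarishChandra MU ∧ IsEmb MV MU φ ∧ IsWeight w ∧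
      (∃ p, InNorm MV w p) ∧ (∃ p, InNorm MU w p) ∧
      sobolevGap MU w < sobolevGap MV w ∧
      (∀ pmax pmin qmax qmin, IsMaxNorm MV w pmax → IsMinNorm MV w pmin →
        IsMaxNorm MU w qmax → IsMinNorm MU w qmin → gapOf MU qmax qmin < gapOf MV pmax pmin) := by
  refine ⟨ℕ →₀ ℂ, inferInstance, inferInstance, modS (2 * 4) 0, ℕ →₀ (ℂ × ℂ), inferInstance,
    inferInstance, modS (2 * 4) nil2, incl, wgtS 4, modS_isHC (by norm_num) _,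
    modS_isHC (by norm_num) _, incl_isEmb _, wgtS_isWeight 4, ?_, ?_, ?_, ?_⟩
  · exact ⟨_, (inNorm_iff _ _ _ _).mpr (norm_V 4 0 (by norm_num))⟩
  · exact ⟨_, (inNorm_iff _ _ _ _).mpr (norm_U 4)⟩
  · rw [sobolevGap_eq, sobolevGap_eq]
    exact gaps_aux
  · intro pmax pmin qmax qmin h1 h2 h3 h4
    rw [isMaxNorm_iff] at h1 h3
    rw [isMinNorm_iff] at h2 h4
    rw [gapOf_eq, gapOf_eq]
    exact gaps_aux2 h1 h2 h3 h4

end Pool.Agent.Results.MP_c67f28_al.SobolevGapNotMonotone
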