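import Pool.Agent.H40.SG.Main

/-!
# MP_c67f28_al: the Sobolev gap of a submodule can be larger, for a semisimple group

For the connected semisimple group `G = SU(1,1) × SU(1,1)` (finite centre) and every real `B` there
are Harish-Chandra modules `V ⊂ U`, with `V` irreducible, and a weight `w`, with `Norm(V, w)` and
`Norm(U, w)` nonempty, such that `s(V, w) > s(U, w) + B`.
-/

namespace Pool.Agent.Results.MP_c67f28_al.SobolevGapSemisimple

open Pool.Agent.H40.SGS

/-- For every `B` there are Harish-Chandra modules `V ⊂ U` for `SU(1,1) × SU(1,1)`, `V` irreducible,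
and a weight `w` with `Norm(V, w)`, `Norm(U, w)` nonempty and `s(V, w) > s(U, w) + B`; the same
holds for the gaps computed from any representatives of the maximal and minimal classes. -/
theorem result (B : ℝ) :
    ∃ (V : Type) (_ : AddCommGroup V) (_ : Module ℂ V) (MV : GKModule V)
      (U : Type) (_ : AddCommGroup U) (_ : Module ℂ U) (MU : GKModule U)
      (φ : V →ₗ[ℂ] U) (w : G → ℝ),
      IsHarishChandra MV ∧ IsHarishChandra MU ∧ IsEmb MV MU φ ∧ IsIrreducible MV ∧
      IsWeight w ∧ (∃ p, InNorm MV w p) ∧ (∃ p, InNorm MU w p) ∧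
      sobolevGap MU w + B < sobolevGap MV w ∧
      (∀ pmax pmin qmax qmin, IsMaxNorm MV w pmax → IsMinNorm MV w pmin →
        IsMaxNorm MU w qmax → IsMinNorm MU w qmin →
        gapOf MU qmax qmin + B < gapOf MV pmax pmin) :=
  Pool.Agent.H40.SG.main B

end Pool.Agent.Results.MP_c67f28_al.SobolevGapSemisimple
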